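import Pool.Agent.Q206.EqDeg.Alg

/-!
The relation `deg f = deg g` is first-order definable in the polynomial ring over every
algebraically closed field, by one formula without parameters.
-/

namespace Pool.Agent.Results.MP_d395f7_lc.EqualDegreeDefinable

open Polynomial FirstOrder

universe u

/-- There is one parameter-free formula `φ(x, y)` in the first-order language of rings such that
for every algebraically closed field `K` and all polynomials `f, g` in `K[t]` the ring `K[t]`
satisfies `φ(f, g)` if and only if `deg f = deg g` (where `deg 0 = -∞`).  In particular the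
relation `R` is definable in `ℂ[t]`, even without parameters. -/
theorem result :
    (∃ φ : Language.ring.Formula (Fin 2),
      ∀ (K : Type u) [Field K] [IsAlgClosed K] (f g : K[X]),
        (@Language.Formula.Realize Language.ring K[X]
          (FirstOrder.Ring.compatibleRingOfRing K[X]).toStructure (Fin 2) φ ![f, g]) ↔
          f.degree = g.degree) ∧
    (letI := (FirstOrder.Ring.compatibleRingOfRing ℂ[X]).toStructure;
      Set.Definable (∅ : Set ℂ[X]) Language.ring
        {v : Fin 2 → ℂ[X] | (v 0).degree = (v 1).degree}) := by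
  constructor
  · obtain ⟨φ, hφ⟩ := Pool.Agent.Q206.EqDeg.defED (Γ := Fin 2)
      (Pool.Agent.Q206.EqDeg.TermU.var 0) (Pool.Agent.Q206.EqDeg.TermU.var 1)
    refine ⟨φ, fun K _ _ f g => ?_⟩
    exact (hφ K[X] ![f, g]).trans (Pool.Agent.Q206.EqDeg.ed_iff f g)
  · obtain ⟨φ, hφ⟩ := Pool.Agent.Q206.EqDeg.defED (Γ := Fin 2)
      (Pool.Agent.Q206.EqDeg.TermU.var 0) (Pool.Agent.Q206.EqDeg.TermU.var 1)
    let _ := (FirstOrder.Ring.compatibleRingOfRing ℂ[X]).toStructure
    rw [Set.empty_definable_iff]
    refine ⟨φ, ?_⟩
    ext v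
    exact ((hφ ℂ[X] v).trans (Pool.Agent.Q206.EqDeg.ed_iff (v 0) (v 1))).symm

end Pool.Agent.Results.MP_d395f7_lc.EqualDegreeDefinable
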